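import Pool.Agent.Helper68.MAH.Lens

/-!
# Duality: (N1) for all closed cones gives the cone form of Mahler's inequality
-/

set_option autoImplicit false

open MeasureTheory Set
open scoped RealInnerProductSpace ENNReal Pointwise

namespace Pool.Agent.Helper68.MAH

open Lens

/-- a closed convex cone with interior points -/
structure IsCone {n : ℕ} (C : Set (EuclideanSpace ℝ (Fin n))) : Prop where
  closed : IsClosed C
  convex : Convex ℝ C
  zero : (0 : EuclideanSpace ℝ (Fin n)) ∈ C
  smul : ∀ v ∈ C, ∀ c : ℝ, 0 ≤ c → c • v ∈ C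
  int : (interior C).Nonempty

/-- `e` is positive on `C \ {0}` -/
def PosOn {n : ℕ} (C : Set (EuclideanSpace ℝ (Fin n))) (e : EuclideanSpace ℝ (Fin n)) : Prop :=
  ∀ v ∈ C, v ≠ 0 → 0 < ⟪e, v⟫

/-- the dual cone -/
def dualC {n : ℕ} (C : Set (EuclideanSpace ℝ (Fin n))) : Set (EuclideanSpace ℝ (Fin n)) :=
  {y | ∀ v ∈ C, 0 ≤ ⟪y, v⟫}

/-- `∫_C exp(-e)` -/
noncomputable def phi {n : ℕ} (C : Set (EuclideanSpace ℝ (Fin n)))
    (e : EuclideanSpace ℝ (Fin n)) : ℝ := ∫ x in C, Real.exp (-⟪e, x⟫)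

/-- `|C ∩ (z - C)|` -/
noncomputable def vI {n : ℕ} (C : Set (EuclideanSpace ℝ (Fin n)))
    (z : EuclideanSpace ℝ (Fin n)) : ℝ := (volume {x | x ∈ C ∧ z - x ∈ C}).toReal

/-- `|[0,e]|` in the dual cone -/
noncomputable def vS {n : ℕ} (C : Set (EuclideanSpace ℝ (Fin n)))
    (e : EuclideanSpace ℝ (Fin n)) : ℝ := (volume (ordI C e)).toReal

/-- (N1) -/
def S_N1 : Prop := ∀ (n : ℕ) (C : Set (EuclideanSpace ℝ (Fin n))) (e z : EuclideanSpace ℝ (Fin n)),
  IsCone C → PosOn C e → z ∈ interior C →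
    Real.log (vI C z) - Real.log (vS C e) ≤ 2 * Real.log (phi C e) + ⟪e, z⟫ - n

/-- the cone form of Mahler's inequality -/
def S_CM : Prop := ∀ (n : ℕ) (C : Set (EuclideanSpace ℝ (Fin n))) (e z : EuclideanSpace ℝ (Fin n)),
  IsCone C → PosOn C e → z ∈ interior C →
    (n : ℝ) - ⟪e, z⟫ ≤ Real.log (phi C e) + Real.log (phi (dualC C) z)

variable {n : ℕ} {C : Set (EuclideanSpace ℝ (Fin n))} {e z : EuclideanSpace ℝ (Fin n)}

lemma mem_interior_dual (hC : IsCone C) (he : PosOn C e) : e ∈ interior (dualC C) := by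
  obtain ⟨δ, hδ, hd⟩ := exists_delta hC.closed hC.smul he
  refine mem_interior.2 ⟨Metric.ball e δ, ?_, Metric.isOpen_ball, Metric.mem_ball_self hδ⟩
  intro y hy v hv
  have h1 : ‖y - e‖ < δ := by rwa [← dist_eq_norm]
  have h2 : |⟪y - e, v⟫| ≤ ‖y - e‖ * ‖v‖ := abs_real_inner_le_norm _ _
  have h3 : ‖y - e‖ * ‖v‖ ≤ δ * ‖v‖ := mul_le_mul_of_nonneg_right h1.le (norm_nonneg v)
  have h4 := hd v hv
  have h5 : ⟪y, v⟫ = ⟪y - e, v⟫ + ⟪e, v⟫ := by rw [← inner_add_left, sub_add_cancel]
  have h6 := (abs_le.1 h2).1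
  rw [h5]
  linarith

lemma isCone_dual (hC : IsCone C) (he : PosOn C e) : IsCone (dualC C) where
  closed := by
    have : dualC C = ⋂ v ∈ C, {y | 0 ≤ ⟪y, v⟫} := by
      ext y
      simp only [dualC, mem_setOf_eq, mem_iInter]
    rw [this]
    exact isClosed_biInter fun v _ => isClosed_le (by fun_prop) (by fun_prop)
  convex := by
    intro x hx y hy a b ha hb _ v hv
    rw [inner_add_left, inner_smul_left, inner_smul_left]
    simp only [conj_trivial]
    have := mul_nonneg ha (hx v hv)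
    have := mul_nonneg hb (hy v hv)
    linarith
  zero := by
    intro v _
    simp
  smul := by
    intro y hy c hc v hv
    rw [inner_smul_left]
    simp only [conj_trivial]
    exact mul_nonneg hc (hy v hv)
  int := ⟨e, mem_interior_dual hC he⟩

lemma posOn_dual (hz : z ∈ interior C) : PosOn (dualC C) z := by
  intro y hy hy0
  obtain ⟨r, hr, hrC⟩ := Metric.isOpen_iff.1 isOpen_interior z hz
  have hyn : 0 < ‖y‖ := norm_pos_iff.2 hy0
  have hm : z - (r / 2 / ‖y‖) • y ∈ C := by
    apply interior_subset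
    apply hrC
    rw [Metric.mem_ball, dist_eq_norm, sub_sub_cancel_left, norm_neg, norm_smul, Real.norm_eq_abs,
      abs_of_pos (by positivity), div_mul_cancel₀ _ hyn.ne']
    linarith
  have h := hy _ hm
  rw [inner_sub_right, inner_smul_right, real_inner_self_eq_norm_sq] at h
  have h' : 0 < r / 2 / ‖y‖ * ‖y‖ ^ 2 := by positivity
  rw [real_inner_comm]
  linarith

/-- bipolar theorem -/
lemma dual_dual (hC : IsCone C) {x : EuclideanSpace ℝ (Fin n)} (hx : ∀ y ∈ dualC C, 0 ≤ ⟪x, y⟫) :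
    x ∈ C := by
  by_contra hcon
  obtain ⟨f, s, hf1, hf2⟩ := geometric_hahn_banach_closed_point hC.convex hC.closed hcon
  set w : EuclideanSpace ℝ (Fin n) := (InnerProductSpace.toDual ℝ _).symm f with hw
  have hfw : ∀ x, ⟪w, x⟫ = f x := by
    intro x
    rw [hw, InnerProductSpace.toDual_symm_apply]
  have hs : 0 < s := by
    have := hf1 0 hC.zero
    simpa using this
  have hneg : ∀ v ∈ C, f v ≤ 0 := by
    intro v hv
    by_contra hpos
    push Not at hpos
    have h1 := hf1 _ (hC.smul v hv (s / f v) (by positivity))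
    rw [map_smul, smul_eq_mul, div_mul_cancel₀ _ hpos.ne'] at h1
    exact lt_irrefl _ h1
  have hmem : -w ∈ dualC C := by
    intro v hv
    rw [inner_neg_left, hfw]
    linarith [hneg v hv]
  have h := hx _ hmem
  rw [inner_neg_right, real_inner_comm, hfw] at h
  linarith

lemma ordI_dual (hC : IsCone C) : ordI (dualC C) z = {x | x ∈ C ∧ z - x ∈ C} := by
  ext x
  constructor
  · intro hx
    refine ⟨dual_dual hC fun y hy => (hx y hy).1, dual_dual hC fun y hy => ?_⟩
    rw [inner_sub_left]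
    linarith [(hx y hy).2]
  · rintro ⟨h1, h2⟩ y hy
    have h3 := hy x h1
    have h4 := hy (z - x) h2
    rw [inner_sub_right] at h4
    rw [real_inner_comm y x, real_inner_comm y z]
    constructor <;> linarith

lemma vI_dual : {y | y ∈ dualC C ∧ e - y ∈ dualC C} = ordI C e := by
  ext y
  constructor
  · rintro ⟨h1, h2⟩ v hv
    have h3 := h2 v hv
    rw [inner_sub_left] at h3
    exact ⟨h1 v hv, by linarith⟩
  · intro h
    refine ⟨fun v hv => (h v hv).1, fun v hv => ?_⟩
    rw [inner_sub_left]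
    linarith [(h v hv).2]

/-- **(N1) implies the cone form of Mahler's inequality.** -/
theorem dual (h : S_N1) : S_CM := by
  intro n C e z hC he hz
  have h1 := h n C e z hC he hz
  have h2 := h n (dualC C) z e (isCone_dual hC he) (posOn_dual hz) (mem_interior_dual hC he)
  have e1 : vS (dualC C) z = vI C z := by
    unfold vS vI
    rw [ordI_dual hC]
  have e2 : vI (dualC C) e = vS C e := by
    unfold vS vI
    rw [vI_dual]
  rw [e1, e2, real_inner_comm] at h2
  linarith

end Pool.Agent.Helper68.MAH
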